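import Mathlib
import Pool.Agent.Q142.Expl
import Pool.Agent.Q142.Join

set_option autoImplicit false

namespace Pool.Agent.Results.MP_7ca032_co.NonJoin

open Q142

/-- The 17 vertices of the polytope. -/
def xs : Fin 17 → Fin 7 → ℤ :=
  ![![0, 0, 0, 0, 0, 0, 0],
    ![4, 0, 0, 0, 0, 0, 0],
    ![4, 2, 0, 0, 0, 0, 0],
    ![2, 4, 0, 0, 0, 0, 0],
    ![0, 4, 0, 0, 0, 0, 0],
    ![0, 0, 1, 0, 0, 0, 0],
    ![2, 0, 1, 0, 0, 0, 0],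
    ![2, 1, 1, 0, 0, 0, 0],
    ![1, 2, 1, 0, 0, 0, 0],
    ![0, 2, 1, 0, 0, 0, 0],
    ![0, 0, 0, 0, 0, 0, 2],
    ![0, 0, 0, 3, 0, 0, 2],
    ![0, 0, 0, 0, 3, 0, 2],
    ![0, 0, 0, 0, 0, 3, 2],
    ![0, 0, 0, 2, 1, -1, 2],
    ![0, 0, 0, -1, 1, 2, 2],
    ![0, 0, 1, 0, 0, 0, 1]]

/-- The normals of the 17 facets. -/
def As : Fin 17 → Fin 7 → ℤ :=
  ![![-1, 0, 0, 0, 0, 0, 0],
    ![0, -1, 0, 0, 0, 0, 0],
    ![1, 0, 2, 0, 0, 0, 2],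
    ![0, 1, 2, 0, 0, 0, 2],
    ![1, 1, 3, 0, 0, 0, 3],
    ![0, 0, -1, 0, 0, 0, 0],
    ![0, 0, 0, 0, -1, 0, 0],
    ![0, 0, 0, 0, -1, -1, 0],
    ![0, 0, 0, -1, -1, 0, 0],
    ![0, 0, 0, -1, 0, -2, 0],
    ![0, 0, 0, -2, 0, -1, 0],
    ![0, 0, 0, 2, 2, 2, -3],
    ![0, 0, 0, 2, 2, 0, -3],
    ![0, 0, 0, 0, 2, 2, -3],
    ![0, 0, 3, 1, 1, 1, 0],
    ![0, 0, 3, 1, 1, 0, 0],
    ![0, 0, 3, 0, 1, 1, 0]]

/-- The right hand sides of the 17 facets. -/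
def bs : Fin 17 → ℤ := ![0, 0, 4, 4, 6, 0, 0, 0, 0, 0, 0, 0, 0, 0, 3, 3, 3]

/-- The vertex sets of the 17 facets. -/
def Is : Fin 17 → Finset (Fin 17) :=
  ![{0, 4, 5, 9, 10, 11, 12, 13, 14, 15, 16},
    {0, 1, 5, 6, 10, 11, 12, 13, 14, 15, 16},
    {1, 2, 6, 7, 10, 11, 12, 13, 14, 15, 16},
    {3, 4, 8, 9, 10, 11, 12, 13, 14, 15, 16},
    {2, 3, 7, 8, 10, 11, 12, 13, 14, 15, 16},
    {0, 1, 2, 3, 4, 10, 11, 12, 13, 14, 15},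
    {0, 1, 2, 3, 4, 5, 6, 7, 8, 9, 10, 11, 13, 16},
    {0, 1, 2, 3, 4, 5, 6, 7, 8, 9, 10, 11, 14, 16},
    {0, 1, 2, 3, 4, 5, 6, 7, 8, 9, 10, 13, 15, 16},
    {0, 1, 2, 3, 4, 5, 6, 7, 8, 9, 10, 12, 14, 16},
    {0, 1, 2, 3, 4, 5, 6, 7, 8, 9, 10, 12, 15, 16},
    {0, 1, 2, 3, 4, 5, 6, 7, 8, 9, 11, 12, 13},
    {0, 1, 2, 3, 4, 5, 6, 7, 8, 9, 11, 12, 14},
    {0, 1, 2, 3, 4, 5, 6, 7, 8, 9, 12, 13, 15},
    {5, 6, 7, 8, 9, 11, 12, 13, 16},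
    {5, 6, 7, 8, 9, 11, 12, 14, 16},
    {5, 6, 7, 8, 9, 12, 13, 15, 16}]

/-- functionals exposing the vertices -/
def vf : Fin 17 → Fin 7 → ℤ :=
  ![![-1, -1, -1, 0, 3, 0, -9],
    ![1, -1, 1, 0, 3, 0, -7],
    ![2, 1, 4, 0, 3, 0, -4],
    ![1, 2, 4, 0, 3, 0, -4],
    ![-1, 1, 1, 0, 3, 0, -7],
    ![-1, -1, 9, 2, 6, 2, -9],
    ![1, -1, 11, 2, 6, 2, -7],
    ![2, 1, 14, 2, 6, 2, -4],
    ![1, 2, 14, 2, 6, 2, -4],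
    ![-1, 1, 11, 2, 6, 2, -7],
    ![1, 1, 6, -4, -3, -4, 7],
    ![1, 1, 12, 6, 4, 2, 1],
    ![1, 1, 15, 3, 9, 3, -2],
    ![1, 1, 12, 2, 4, 6, 1],
    ![1, 1, 9, 2, 2, -3, 4],
    ![1, 1, 9, -3, 2, 2, 4],
    ![1, 1, 16, -2, 0, -2, 7]]

/-- a vertex off each facet -/
def js : Fin 17 → Fin 17 := ![1, 2, 0, 0, 0, 5, 12, 12, 11, 11, 11, 10, 10, 10, 0, 0, 0]

/-- denominators -/
def Ds : Fin 17 → ℤ := ![12, 12, 12, 12, 6, 12, 12, 12, 12, 12, 12, 12, 12, 12, 6, 6, 6]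

/-- affine dependences showing that a facet and a vertex off it span the space -/
def us : Fin 17 → Fin 7 → Fin 17 → ℤ :=
  ![![![-3, 3, 0, 0, 0, 0, 0, 0, 0, 0, 0, 0, 0, 0, 0, 0, 0],
      ![-3, 0, 0, 0, 3, 0, 0, 0, 0, 0, 0, 0, 0, 0, 0, 0, 0],
      ![-12, 0, 0, 0, 0, 12, 0, 0, 0, 0, 0, 0, 0, 0, 0, 0, 0],
      ![0, 0, 0, 0, 0, 0, 0, 0, 0, 0, -4, 4, 0, 0, 0, 0, 0],
      ![0, 0, 0, 0, 0, 0, 0, 0, 0, 0, -4, 0, 4, 0, 0, 0, 0],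
      ![0, 0, 0, 0, 0, 0, 0, 0, 0, 0, -4, 0, 0, 4, 0, 0, 0],
      ![-6, 0, 0, 0, 0, 0, 0, 0, 0, 0, 6, 0, 0, 0, 0, 0, 0]],
    ![![-3, 3, 0, 0, 0, 0, 0, 0, 0, 0, 0, 0, 0, 0, 0, 0, 0],
      ![0, -6, 6, 0, 0, 0, 0, 0, 0, 0, 0, 0, 0, 0, 0, 0, 0],
      ![-12, 0, 0, 0, 0, 12, 0, 0, 0, 0, 0, 0, 0, 0, 0, 0, 0],
      ![0, 0, 0, 0, 0, 0, 0, 0, 0, 0, -4, 4, 0, 0, 0, 0, 0],
      ![0, 0, 0, 0, 0, 0, 0, 0, 0, 0, -4, 0, 4, 0, 0, 0, 0],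
      ![0, 0, 0, 0, 0, 0, 0, 0, 0, 0, -4, 0, 0, 4, 0, 0, 0],
      ![-6, 0, 0, 0, 0, 0, 0, 0, 0, 0, 6, 0, 0, 0, 0, 0, 0]],
    ![![-3, 3, 0, 0, 0, 0, 0, 0, 0, 0, 0, 0, 0, 0, 0, 0, 0],
      ![0, -6, 6, 0, 0, 0, 0, 0, 0, 0, 0, 0, 0, 0, 0, 0, 0],
      ![-6, -6, 0, 0, 0, 0, 12, 0, 0, 0, 0, 0, 0, 0, 0, 0, 0],
      ![0, 0, 0, 0, 0, 0, 0, 0, 0, 0, -4, 4, 0, 0, 0, 0, 0],
      ![0, 0, 0, 0, 0, 0, 0, 0, 0, 0, -4, 0, 4, 0, 0, 0, 0],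
      ![0, 0, 0, 0, 0, 0, 0, 0, 0, 0, -4, 0, 0, 4, 0, 0, 0],
      ![-6, 0, 0, 0, 0, 0, 0, 0, 0, 0, 6, 0, 0, 0, 0, 0, 0]],
    ![![0, 0, 0, 6, -6, 0, 0, 0, 0, 0, 0, 0, 0, 0, 0, 0, 0],
      ![-3, 0, 0, 0, 3, 0, 0, 0, 0, 0, 0, 0, 0, 0, 0, 0, 0],
      ![-6, 0, 0, -6, 0, 0, 0, 0, 12, 0, 0, 0, 0, 0, 0, 0, 0],
      ![0, 0, 0, 0, 0, 0, 0, 0, 0, 0, -4, 4, 0, 0, 0, 0, 0],
      ![0, 0, 0, 0, 0, 0, 0, 0, 0, 0, -4, 0, 4, 0, 0, 0, 0],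
      ![0, 0, 0, 0, 0, 0, 0, 0, 0, 0, -4, 0, 0, 4, 0, 0, 0],
      ![-6, 0, 0, 0, 0, 0, 0, 0, 0, 0, 6, 0, 0, 0, 0, 0, 0]],
    ![![-1, 0, 2, -1, 0, 0, 0, 0, 0, 0, 0, 0, 0, 0, 0, 0, 0],
      ![-1, 0, -1, 2, 0, 0, 0, 0, 0, 0, 0, 0, 0, 0, 0, 0, 0],
      ![-3, 0, -3, 0, 0, 0, 0, 6, 0, 0, 0, 0, 0, 0, 0, 0, 0],
      ![0, 0, 0, 0, 0, 0, 0, 0, 0, 0, -2, 2, 0, 0, 0, 0, 0],
      ![0, 0, 0, 0, 0, 0, 0, 0, 0, 0, -2, 0, 2, 0, 0, 0, 0],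
      ![0, 0, 0, 0, 0, 0, 0, 0, 0, 0, -2, 0, 0, 2, 0, 0, 0],
      ![-3, 0, 0, 0, 0, 0, 0, 0, 0, 0, 3, 0, 0, 0, 0, 0, 0]],
    ![![-3, 3, 0, 0, 0, 0, 0, 0, 0, 0, 0, 0, 0, 0, 0, 0, 0],
      ![0, -6, 6, 0, 0, 0, 0, 0, 0, 0, 0, 0, 0, 0, 0, 0, 0],
      ![-12, 0, 0, 0, 0, 12, 0, 0, 0, 0, 0, 0, 0, 0, 0, 0, 0],
      ![0, 0, 0, 0, 0, 0, 0, 0, 0, 0, -4, 4, 0, 0, 0, 0, 0],
      ![0, 0, 0, 0, 0, 0, 0, 0, 0, 0, -4, 0, 4, 0, 0, 0, 0],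
      ![0, 0, 0, 0, 0, 0, 0, 0, 0, 0, -4, 0, 0, 4, 0, 0, 0],
      ![-6, 0, 0, 0, 0, 0, 0, 0, 0, 0, 6, 0, 0, 0, 0, 0, 0]],
    ![![-3, 3, 0, 0, 0, 0, 0, 0, 0, 0, 0, 0, 0, 0, 0, 0, 0],
      ![0, -6, 6, 0, 0, 0, 0, 0, 0, 0, 0, 0, 0, 0, 0, 0, 0],
      ![-12, 0, 0, 0, 0, 12, 0, 0, 0, 0, 0, 0, 0, 0, 0, 0, 0],
      ![0, 0, 0, 0, 0, 0, 0, 0, 0, 0, -4, 4, 0, 0, 0, 0, 0],
      ![0, 0, 0, 0, 0, 0, 0, 0, 0, 0, -4, 0, 4, 0, 0, 0, 0],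
      ![0, 0, 0, 0, 0, 0, 0, 0, 0, 0, -4, 0, 0, 4, 0, 0, 0],
      ![-6, 0, 0, 0, 0, 0, 0, 0, 0, 0, 6, 0, 0, 0, 0, 0, 0]],
    ![![-3, 3, 0, 0, 0, 0, 0, 0, 0, 0, 0, 0, 0, 0, 0, 0, 0],
      ![0, -6, 6, 0, 0, 0, 0, 0, 0, 0, 0, 0, 0, 0, 0, 0, 0],
      ![-12, 0, 0, 0, 0, 12, 0, 0, 0, 0, 0, 0, 0, 0, 0, 0, 0],
      ![0, 0, 0, 0, 0, 0, 0, 0, 0, 0, -4, 4, 0, 0, 0, 0, 0],
      ![0, 0, 0, 0, 0, 0, 0, 0, 0, 0, -4, 0, 4, 0, 0, 0, 0],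
      ![0, 0, 0, 0, 0, 0, 0, 0, 0, 0, 0, 8, 4, 0, -12, 0, 0],
      ![-6, 0, 0, 0, 0, 0, 0, 0, 0, 0, 6, 0, 0, 0, 0, 0, 0]],
    ![![-3, 3, 0, 0, 0, 0, 0, 0, 0, 0, 0, 0, 0, 0, 0, 0, 0],
      ![0, -6, 6, 0, 0, 0, 0, 0, 0, 0, 0, 0, 0, 0, 0, 0, 0],
      ![-12, 0, 0, 0, 0, 12, 0, 0, 0, 0, 0, 0, 0, 0, 0, 0, 0],
      ![0, 0, 0, 0, 0, 0, 0, 0, 0, 0, -4, 4, 0, 0, 0, 0, 0],
      ![0, 0, 0, 0, 0, 0, 0, 0, 0, 0, -8, 4, 0, -8, 0, 12, 0],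
      ![0, 0, 0, 0, 0, 0, 0, 0, 0, 0, -4, 0, 0, 4, 0, 0, 0],
      ![-6, 0, 0, 0, 0, 0, 0, 0, 0, 0, 6, 0, 0, 0, 0, 0, 0]],
    ![![-3, 3, 0, 0, 0, 0, 0, 0, 0, 0, 0, 0, 0, 0, 0, 0, 0],
      ![0, -6, 6, 0, 0, 0, 0, 0, 0, 0, 0, 0, 0, 0, 0, 0, 0],
      ![-12, 0, 0, 0, 0, 12, 0, 0, 0, 0, 0, 0, 0, 0, 0, 0, 0],
      ![0, 0, 0, 0, 0, 0, 0, 0, 0, 0, -4, 4, 0, 0, 0, 0, 0],
      ![0, 0, 0, 0, 0, 0, 0, 0, 0, 0, -4, 0, 4, 0, 0, 0, 0],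
      ![0, 0, 0, 0, 0, 0, 0, 0, 0, 0, 0, 8, 4, 0, -12, 0, 0],
      ![-6, 0, 0, 0, 0, 0, 0, 0, 0, 0, 6, 0, 0, 0, 0, 0, 0]],
    ![![-3, 3, 0, 0, 0, 0, 0, 0, 0, 0, 0, 0, 0, 0, 0, 0, 0],
      ![0, -6, 6, 0, 0, 0, 0, 0, 0, 0, 0, 0, 0, 0, 0, 0, 0],
      ![-12, 0, 0, 0, 0, 12, 0, 0, 0, 0, 0, 0, 0, 0, 0, 0, 0],
      ![0, 0, 0, 0, 0, 0, 0, 0, 0, 0, -4, 4, 0, 0, 0, 0, 0],
      ![0, 0, 0, 0, 0, 0, 0, 0, 0, 0, -4, 0, 4, 0, 0, 0, 0],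
      ![0, 0, 0, 0, 0, 0, 0, 0, 0, 0, -6, 2, -2, 0, 0, 6, 0],
      ![-6, 0, 0, 0, 0, 0, 0, 0, 0, 0, 6, 0, 0, 0, 0, 0, 0]],
    ![![-3, 3, 0, 0, 0, 0, 0, 0, 0, 0, 0, 0, 0, 0, 0, 0, 0],
      ![0, -6, 6, 0, 0, 0, 0, 0, 0, 0, 0, 0, 0, 0, 0, 0, 0],
      ![-12, 0, 0, 0, 0, 12, 0, 0, 0, 0, 0, 0, 0, 0, 0, 0, 0],
      ![0, 0, 0, 0, 0, 0, 0, 0, 0, 0, -4, 4, 0, 0, 0, 0, 0],
      ![0, 0, 0, 0, 0, 0, 0, 0, 0, 0, -4, 0, 4, 0, 0, 0, 0],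
      ![0, 0, 0, 0, 0, 0, 0, 0, 0, 0, -4, 0, 0, 4, 0, 0, 0],
      ![-6, 0, 0, 0, 0, 0, 0, 0, 0, 0, 6, 0, 0, 0, 0, 0, 0]],
    ![![-3, 3, 0, 0, 0, 0, 0, 0, 0, 0, 0, 0, 0, 0, 0, 0, 0],
      ![0, -6, 6, 0, 0, 0, 0, 0, 0, 0, 0, 0, 0, 0, 0, 0, 0],
      ![-12, 0, 0, 0, 0, 12, 0, 0, 0, 0, 0, 0, 0, 0, 0, 0, 0],
      ![0, 0, 0, 0, 0, 0, 0, 0, 0, 0, -4, 4, 0, 0, 0, 0, 0],
      ![0, 0, 0, 0, 0, 0, 0, 0, 0, 0, -4, 0, 4, 0, 0, 0, 0],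
      ![0, 0, 0, 0, 0, 0, 0, 0, 0, 0, 0, 8, 4, 0, -12, 0, 0],
      ![-6, 0, 0, 0, 0, 0, 0, 0, 0, 0, 6, 0, 0, 0, 0, 0, 0]],
    ![![-3, 3, 0, 0, 0, 0, 0, 0, 0, 0, 0, 0, 0, 0, 0, 0, 0],
      ![0, -6, 6, 0, 0, 0, 0, 0, 0, 0, 0, 0, 0, 0, 0, 0, 0],
      ![-12, 0, 0, 0, 0, 12, 0, 0, 0, 0, 0, 0, 0, 0, 0, 0, 0],
      ![0, 0, 0, 0, 0, 0, 0, 0, 0, 0, 0, 0, 4, 8, 0, -12, 0],
      ![0, 0, 0, 0, 0, 0, 0, 0, 0, 0, -4, 0, 4, 0, 0, 0, 0],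
      ![0, 0, 0, 0, 0, 0, 0, 0, 0, 0, -4, 0, 0, 4, 0, 0, 0],
      ![-6, 0, 0, 0, 0, 0, 0, 0, 0, 0, 6, 0, 0, 0, 0, 0, 0]],
    ![![0, 0, 0, 0, 0, -3, 3, 0, 0, 0, 0, 0, 0, 0, 0, 0, 0],
      ![0, 0, 0, 0, 0, 0, -6, 6, 0, 0, 0, 0, 0, 0, 0, 0, 0],
      ![-6, 0, 0, 0, 0, 6, 0, 0, 0, 0, 0, 0, 0, 0, 0, 0, 0],
      ![-2, 0, 0, 0, 0, 4, 0, 0, 0, 0, 0, 2, 0, 0, 0, 0, -4],
      ![-2, 0, 0, 0, 0, 4, 0, 0, 0, 0, 0, 0, 2, 0, 0, 0, -4],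
      ![-2, 0, 0, 0, 0, 4, 0, 0, 0, 0, 0, 0, 0, 2, 0, 0, -4],
      ![0, 0, 0, 0, 0, -6, 0, 0, 0, 0, 0, 0, 0, 0, 0, 0, 6]],
    ![![0, 0, 0, 0, 0, -3, 3, 0, 0, 0, 0, 0, 0, 0, 0, 0, 0],
      ![0, 0, 0, 0, 0, 0, -6, 6, 0, 0, 0, 0, 0, 0, 0, 0, 0],
      ![-6, 0, 0, 0, 0, 6, 0, 0, 0, 0, 0, 0, 0, 0, 0, 0, 0],
      ![-2, 0, 0, 0, 0, 4, 0, 0, 0, 0, 0, 2, 0, 0, 0, 0, -4],
      ![-2, 0, 0, 0, 0, 4, 0, 0, 0, 0, 0, 0, 2, 0, 0, 0, -4],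
      ![0, 0, 0, 0, 0, 0, 0, 0, 0, 0, 0, 4, 2, 0, -6, 0, 0],
      ![0, 0, 0, 0, 0, -6, 0, 0, 0, 0, 0, 0, 0, 0, 0, 0, 6]],
    ![![0, 0, 0, 0, 0, -3, 3, 0, 0, 0, 0, 0, 0, 0, 0, 0, 0],
      ![0, 0, 0, 0, 0, 0, -6, 6, 0, 0, 0, 0, 0, 0, 0, 0, 0],
      ![-6, 0, 0, 0, 0, 6, 0, 0, 0, 0, 0, 0, 0, 0, 0, 0, 0],
      ![0, 0, 0, 0, 0, 0, 0, 0, 0, 0, 0, 0, 2, 4, 0, -6, 0],
      ![-2, 0, 0, 0, 0, 4, 0, 0, 0, 0, 0, 0, 2, 0, 0, 0, -4],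
      ![-2, 0, 0, 0, 0, 4, 0, 0, 0, 0, 0, 0, 0, 2, 0, 0, -4],
      ![0, 0, 0, 0, 0, -6, 0, 0, 0, 0, 0, 0, 0, 0, 0, 0, 6]]]

set_option maxRecDepth 20000 in
lemma cert : FCert xs As bs Is where
  ne := by decide +kernel
  on := by decide +kernel
  off := by decide +kernel
  span := by
    intro k
    refine ⟨js k, Ds k, us k, ?_, ?_, ?_, ?_, ?_⟩
    · revert k; decide +kernel
    · revert k; decide +kernel
    · revert k; decide +kernel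
    · revert k; decide +kernel
    · revert k; decide +kernel

lemma vert (i : Fin 17) : IsExposed ℝ (poly (pt xs)) {pt xs i} := by
  have h1 : ∀ i k : Fin 17, k ≠ i → ∑ c, vf i c * xs k c < ∑ c, vf i c * xs i c := by
    decide +kernel
  have h := (exposed_of_functional (pt xs) {i} (lin (vf i)) (lin (vf i) (pt xs i)) (by
    intro k hk
    rw [Finset.mem_singleton.1 hk]) (by
    intro k hk
    rw [lin_pt, lin_pt]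
    exact_mod_cast h1 i k (by simpa using hk))).1
  have h2 : hull (pt xs) {i} = {pt xs i} := by simp [hull]
  rwa [h2] at h

/-- Any 2-colouring of the vertices that is constant off each facet is constant. -/
lemma conn (χ : Fin 17 → Prop) (h : ∀ k i j, i ∉ Is k → j ∉ Is k → (χ i ↔ χ j)) :
    ∀ i j, χ i ↔ χ j := by
  have h0 : ∀ i, χ 0 ↔ χ i := by
    have e1 : χ 0 ↔ χ 1 := h 14 0 1 (by decide) (by decide)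
    have e2 : χ 0 ↔ χ 2 := h 14 0 2 (by decide) (by decide)
    have e3 : χ 0 ↔ χ 3 := h 14 0 3 (by decide) (by decide)
    have e4 : χ 0 ↔ χ 4 := h 14 0 4 (by decide) (by decide)
    have e10 : χ 0 ↔ χ 10 := h 14 0 10 (by decide) (by decide)
    have e14 : χ 0 ↔ χ 14 := h 14 0 14 (by decide) (by decide)
    have e15 : χ 0 ↔ χ 15 := h 14 0 15 (by decide) (by decide)
    have e5 : χ 0 ↔ χ 5 := h 2 0 5 (by decide) (by decide)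
    have e8 : χ 0 ↔ χ 8 := h 2 0 8 (by decide) (by decide)
    have e9 : χ 0 ↔ χ 9 := h 2 0 9 (by decide) (by decide)
    have e6 : χ 1 ↔ χ 6 := h 0 1 6 (by decide) (by decide)
    have e7 : χ 1 ↔ χ 7 := h 0 1 7 (by decide) (by decide)
    have e12 : χ 14 ↔ χ 12 := h 6 14 12 (by decide) (by decide)
    have e13 : χ 12 ↔ χ 13 := h 7 12 13 (by decide) (by decide)
    have e11 : χ 12 ↔ χ 11 := h 8 12 11 (by decide) (by decide)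
    have e16 : χ 14 ↔ χ 16 := h 11 14 16 (by decide) (by decide)
    intro i
    fin_cases i
    · exact Iff.rfl
    · exact e1
    · exact e2
    · exact e3
    · exact e4
    · exact e5
    · exact e1.trans e6
    · exact e1.trans e7
    · exact e8
    · exact e9
    · exact e10
    · exact (e14.trans e12).trans e11
    · exact e14.trans e12
    · exact (e14.trans e12).trans e13
    · exact e14
    · exact e15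
    · exact e14.trans e16
  intro i j
  exact (h0 i).symm.trans (h0 j)

lemma mem_of_weights (v : Sp 7) (w : Fin 17 → ℝ) (h0 : ∀ i, 0 ≤ w i) (h1 : ∑ i, w i = 1)
    (h2 : ∀ c, ∑ i, w i * xs i c = v c) : v ∈ poly (pt xs) := by
  have hv : v = ∑ i, w i • pt xs i := by
    ext c
    rw [← h2 c]
    simp [pt]
  rw [hv]
  apply (convex_convexHull ℝ _).sum_mem (fun i _ => h0 i) h1
  intro i _
  exact mem_poly _ _

/-- decomposition in the pentagon -/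
lemma pentagon (a b U : ℝ) (ha : 0 ≤ a) (hb : 0 ≤ b) (ha' : a ≤ 2 * U) (hb' : b ≤ 2 * U)
    (hab : a + b ≤ 3 * U) : ∃ w0 w1 w2 w3 w4 : ℝ, 0 ≤ w0 ∧ 0 ≤ w1 ∧ 0 ≤ w2 ∧ 0 ≤ w3 ∧ 0 ≤ w4 ∧
      w0 + w1 + w2 + w3 + w4 = U ∧ 2 * w1 + 2 * w2 + w3 = a ∧ w2 + 2 * w3 + 2 * w4 = b := by
  by_cases h1 : 2 * b ≤ a
  · exact ⟨U - a / 2, (a - 2 * b) / 2, b, 0, 0, by linarith, by linarith, hb, le_refl _, le_refl _,
      by ring, by ring, by ring⟩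
  · by_cases h2 : 2 * a ≤ b
    · exact ⟨U - b / 2, 0, 0, a, (b - 2 * a) / 2, by linarith, le_refl _, le_refl _, ha,
        by linarith, by ring, by ring, by ring⟩
    · push Not at h1 h2
      exact ⟨U - (a + b) / 3, 0, (2 * a - b) / 3, (2 * b - a) / 3, 0, by linarith, le_refl _,
        by linarith, by linarith, le_refl _, by ring, by ring, by ring⟩

/-- decomposition in the fan of cones over the facets of the second polytope off the origin -/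
lemma cone (x y z T : ℝ) (h1 : 0 ≤ y) (h2 : 0 ≤ y + z) (h3 : 0 ≤ x + y) (h4 : 0 ≤ x + 2 * z)
    (h5 : 0 ≤ 2 * x + z) (h6 : x + y + z ≤ 3 * T) (h7 : x + y ≤ 3 * T) (h8 : y + z ≤ 3 * T) :
    ∃ ra rb rc rs rt : ℝ, 0 ≤ ra ∧ 0 ≤ rb ∧ 0 ≤ rc ∧ 0 ≤ rs ∧ 0 ≤ rt ∧
      3 * ra + 2 * rs - rt = x ∧ 3 * rb + rs + rt = y ∧ 3 * rc - rs + 2 * rt = z ∧
      ra + rb + rc + rs + rt ≤ T := by
  by_cases hz : z ≤ 0
  · exact ⟨(x + 2 * z) / 3, (y + z) / 3, 0, -z, 0, by linarith, by linarith, le_refl _,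
      by linarith, le_refl _, by ring, by ring, by ring, by linarith⟩
  · by_cases hx : x ≤ 0
    · exact ⟨0, (y + x) / 3, (z + 2 * x) / 3, 0, -x, le_refl _, by linarith, by linarith,
        le_refl _, by linarith, by ring, by ring, by ring, by linarith⟩
    · push Not at hz hx
      exact ⟨x / 3, y / 3, z / 3, 0, 0, by linarith, by linarith, by linarith, le_refl _,
        le_refl _, by ring, by ring, by ring, by linarith⟩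

lemma split (w U A B : ℝ) (hw : 0 ≤ w) (hwU : w ≤ U) (hA : 0 ≤ A) (hB : 0 ≤ B)
    (hAB : 2 * A + B = U) : 0 ≤ w * (A / U) ∧ 0 ≤ w * (B / U) ∧
      2 * (w * (A / U)) + w * (B / U) = w := by
  have hU : 0 ≤ U := hw.trans hwU
  refine ⟨mul_nonneg hw (div_nonneg hA hU), mul_nonneg hw (div_nonneg hB hU), ?_⟩
  rcases eq_or_lt_of_le hU with h | h
  · have : w = 0 := by linarith
    rw [this]; ring
  · field_simp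
    rw [hAB]

lemma hrep_aux (a b c x y z t : ℝ) (g0 : 0 ≤ a) (g1 : 0 ≤ b) (g2 : a ≤ 2 * (2 - t - c))
    (g3 : b ≤ 2 * (2 - t - c)) (g4 : a + b ≤ 3 * (2 - t - c)) (g5 : 0 ≤ c) (g6 : 0 ≤ y)
    (g7 : 0 ≤ y + z) (g8 : 0 ≤ x + y) (g9 : 0 ≤ x + 2 * z) (g10 : 0 ≤ 2 * x + z)
    (g11 : 2 * (x + y + z) ≤ 3 * t) (g12 : 2 * (x + y) ≤ 3 * t) (g13 : 2 * (y + z) ≤ 3 * t)
    (g14 : 3 * c + (x + y + z) ≤ 3) (g15 : 3 * c + (x + y) ≤ 3) (g16 : 3 * c + (y + z) ≤ 3) :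
    ∃ a0 a1 a2 a3 a4 b0 b1 b2 b3 b4 q ra rb rc rs rt d : ℝ,
      (0 ≤ a0 ∧ 0 ≤ a1 ∧ 0 ≤ a2 ∧ 0 ≤ a3 ∧ 0 ≤ a4 ∧ 0 ≤ b0 ∧ 0 ≤ b1 ∧ 0 ≤ b2 ∧ 0 ≤ b3 ∧ 0 ≤ b4 ∧
      0 ≤ q ∧ 0 ≤ ra ∧ 0 ≤ rb ∧ 0 ≤ rc ∧ 0 ≤ rs ∧ 0 ≤ rt ∧ 0 ≤ d) ∧
      a0 + a1 + a2 + a3 + a4 + b0 + b1 + b2 + b3 + b4 + q + ra + rb + rc + rs + rt + d = 1 ∧
      4 * a1 + 4 * a2 + 2 * a3 + 2 * b1 + 2 * b2 + b3 = a ∧
      2 * a2 + 4 * a3 + 4 * a4 + b2 + 2 * b3 + 2 * b4 = b ∧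
      b0 + b1 + b2 + b3 + b4 + d = c ∧
      3 * ra + 2 * rs - rt = x ∧ 3 * rb + rs + rt = y ∧ 3 * rc - rs + 2 * rt = z ∧
      2 * q + 2 * ra + 2 * rb + 2 * rc + 2 * rs + 2 * rt + d = t := by
  obtain ⟨ra, rb, rc, rs, rt, k1, k2, k3, k4, k5, k6, k7, k8, k9⟩ :=
    cone x y z (min (t / 2) (1 - c)) g6 g7 g8 g9 g10
      (by rcases min_choice (t / 2) (1 - c) with h | h <;> rw [h] <;> linarith)
      (by rcases min_choice (t / 2) (1 - c) with h | h <;> rw [h] <;> linarith)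
      (by rcases min_choice (t / 2) (1 - c) with h | h <;> rw [h] <;> linarith)
  obtain ⟨k10, k11⟩ := le_min_iff.1 k9
  obtain ⟨w0, w1, w2, w3, w4, m0, m1, m2, m3, m4, m5, m6, m7⟩ :=
    pentagon a b (2 - t - c) g0 g1 g2 g3 g4
  have hU : 0 ≤ 2 - t - c := by linarith
  obtain ⟨d, d0, d1, d2, d3, d4⟩ : ∃ d : ℝ, 0 ≤ d ∧ 2 * c + t - 2 ≤ d ∧ d ≤ c ∧
      d ≤ t - 2 * (ra + rb + rc + rs + rt) ∧ True := by
    refine ⟨max 0 (2 * c + t - 2), le_max_left _ _, le_max_right _ _, ?_, ?_, trivial⟩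
    · exact max_le g5 (by linarith)
    · exact max_le (by linarith) (by linarith)
  set A : ℝ := 1 - c - t / 2 + d / 2 with hA
  set B : ℝ := c - d with hB
  set U : ℝ := 2 - t - c with hUdef
  have hA0 : 0 ≤ A := by rw [hA]; linarith
  have hB0 : 0 ≤ B := by rw [hB]; linarith
  have hAB : 2 * A + B = U := by rw [hA, hB, hUdef]; ring
  obtain ⟨s1, s2, s3⟩ := split w0 U A B m0 (by linarith) hA0 hB0 hAB
  obtain ⟨s4, s5, s6⟩ := split w1 U A B m1 (by linarith) hA0 hB0 hAB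
  obtain ⟨s7, s8, s9⟩ := split w2 U A B m2 (by linarith) hA0 hB0 hAB
  obtain ⟨s10, s11, s12⟩ := split w3 U A B m3 (by linarith) hA0 hB0 hAB
  obtain ⟨s13, s14, s15⟩ := split w4 U A B m4 (by linarith) hA0 hB0 hAB
  have hsumA : w0 * (A / U) + w1 * (A / U) + w2 * (A / U) + w3 * (A / U) + w4 * (A / U) = A := by
    have h1 : w0 * (A / U) + w1 * (A / U) + w2 * (A / U) + w3 * (A / U) + w4 * (A / U) =
        (w0 + w1 + w2 + w3 + w4) * (A / U) := by ring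
    rw [h1, m5]
    rcases eq_or_lt_of_le hU with h | h
    · have : A = 0 := by linarith
      rw [this]; simp
    · field_simp
  refine ⟨w0 * (A / U), w1 * (A / U), w2 * (A / U), w3 * (A / U), w4 * (A / U),
    w0 * (B / U), w1 * (B / U), w2 * (B / U), w3 * (B / U), w4 * (B / U),
    (t - 2 * (ra + rb + rc + rs + rt) - d) / 2, ra, rb, rc, rs, rt, d,
    ⟨s1, s4, s7, s10, s13, s2, s5, s8, s11, s14, by linarith, k1, k2, k3, k4, k5, d0⟩,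
    ?_, ?_, ?_, ?_, k6, k7, k8, ?_⟩
  · linarith
  · linarith
  · linarith
  · linarith
  · linarith

lemma hrep (v : Sp 7) (h : ∀ k, lin (As k) v ≤ bs k) : v ∈ poly (pt xs) := by
  have g0 := h 0
  have g1 := h 1
  have g2 := h 2
  have g3 := h 3
  have g4 := h 4
  have g5 := h 5
  have g6 := h 6
  have g7 := h 7
  have g8 := h 8
  have g9 := h 9
  have g10 := h 10
  have g11 := h 11
  have g12 := h 12
  have g13 := h 13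
  have g14 := h 14
  have g15 := h 15
  have g16 := h 16
  simp [lin_apply, As, bs, Fin.sum_univ_succ] at g0 g1 g2 g3 g4 g5 g6 g7 g8 g9 g10 g11 g12 g13 g14 g15 g16
  obtain ⟨a0, a1, a2, a3, a4, b0, b1, b2, b3, b4, q, ra, rb, rc, rs, rt, d,
    ⟨n1, n2, n3, n4, n5, n6, n7, n8, n9, n10, n11, n12, n13, n14, n15, n16, n17⟩,
    e0, e1, e2, e3, e4, e5, e6, e7⟩ :=
    hrep_aux (v 0) (v 1) (v 2) (v 3) (v 4) (v 5) (v 6) g0 g1 (by linarith) (by linarith)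
      (by linarith) g5 g6 (by linarith) (by linarith) (by linarith) (by linarith) (by linarith)
      (by linarith) (by linarith) (by linarith) (by linarith) (by linarith)
  refine mem_of_weights v ![a0, a1, a2, a3, a4, b0, b1, b2, b3, b4, q, ra, rb, rc, rs, rt, d]
    ?_ ?_ ?_
  · intro i
    fin_cases i <;> assumption
  · simp [Fin.sum_univ_succ]
    linarith
  · intro c
    fin_cases c
    · simp [Fin.sum_univ_succ, xs]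
      linarith
    · simp [Fin.sum_univ_succ, xs]
      linarith
    · simp [Fin.sum_univ_succ, xs]
      linarith
    · simp [Fin.sum_univ_succ, xs]
      linarith
    · simp [Fin.sum_univ_succ, xs]
      linarith
    · simp [Fin.sum_univ_succ, xs]
      linarith
    · simp [Fin.sum_univ_succ, xs]
      linarith

/-- A vertex-facet assignment of `P`: an injective map from the vertices to non-incident facets, or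
an injective map from the facets to non-incident vertices. -/
def HasAssignment {n : ℕ} (P : Set (Sp n)) : Prop :=
  (∃ φ : vertices P → facets P, Function.Injective φ ∧ ∀ v, v.1 ∉ (φ v).1) ∨
    ∃ ψ : facets P → vertices P, Function.Injective ψ ∧ ∀ F, (ψ F).1 ∉ F.1

lemma Is_inj : Function.Injective Is := by
  have : ∀ a b : Fin 17, Is a = Is b → a = b := by decide +kernel
  exact this

lemma no_assignment : ¬ HasAssignment (poly (pt xs)) := by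
  rintro (⟨φ, hφ, hφ'⟩ | ⟨ψ, hψ, hψ'⟩)
  · -- the ten vertices of the face `Z = 0, t = 0`
    let v : Fin 10 → vertices (poly (pt xs)) := fun i => ⟨pt xs (Fin.castLE (by norm_num) i), vert _⟩
    have h1 : ∀ i, ∃ k : Fin 17, (φ (v i)).1 = hull (pt xs) (Is k) :=
      fun i => cert.facet_eq hrep 0 (φ (v i)).2
    choose k hk using h1
    have hkinj : Function.Injective k := by
      intro i j hij
      have h2 : φ (v i) = φ (v j) := Subtype.ext (by rw [hk i, hk j, hij])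
      have h3 := hφ h2
      have h4 : pt xs (Fin.castLE (by norm_num) i) = pt xs (Fin.castLE (by norm_num) j) :=
        congrArg Subtype.val h3
      have h5 : ∀ i j : Fin 17, i ≠ j → ∃ c, xs i c ≠ xs j c := by decide +kernel
      by_contra hne
      obtain ⟨c, hc⟩ := h5 (Fin.castLE (by norm_num) i) (Fin.castLE (by norm_num) j) (by
        intro h6
        apply hne
        exact Fin.castLE_injective _ h6)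
      apply hc
      have h6 := congrArg (fun w : Sp 7 => w c) h4
      simp only [pt] at h6
      exact_mod_cast h6
    have hkr : ∀ i, k i ∈ ({0, 1, 2, 3, 4, 5, 14, 15, 16} : Finset (Fin 17)) := by
      intro i
      have h2 := hφ' (v i)
      rw [hk i] at h2
      have h3 : Fin.castLE (by norm_num) i ∉ Is (k i) := by
        intro h4
        exact h2 ((cert.mem (k i) _).2 h4)
      have h4 : ∀ (i : Fin 10) (k : Fin 17), Fin.castLE (by norm_num) i ∉ Is k →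
        k ∈ ({0, 1, 2, 3, 4, 5, 14, 15, 16} : Finset (Fin 17)) := by decide +kernel
      exact h4 i (k i) h3
    have hcard := Finset.card_le_card_of_injOn (s := Finset.univ) k (fun i _ => hkr i)
      (hkinj.injOn)
    simp at hcard
  · let F : Fin 8 → facets (poly (pt xs)) := fun i =>
      ⟨hull (pt xs) (Is (Fin.castLE (by norm_num) i + 6)), cert.mem_facets _⟩
    have h1 : ∀ i, ∃ j : Fin 17, (ψ (F i)).1 = pt xs j := by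
      intro i
      obtain ⟨j, hj⟩ := nonempty_ind (pt xs) (ψ (F i)).2 ⟨_, rfl⟩
      exact ⟨j, (Set.mem_singleton_iff.1 hj).symm⟩
    choose j hj using h1
    have hjinj : Function.Injective j := by
      intro i i' hii
      have h2 : ψ (F i) = ψ (F i') := Subtype.ext (by rw [hj i, hj i', hii])
      have h3 := hψ h2
      have h4 := cert.hull_inj (congrArg Subtype.val h3)
      have h5 := Is_inj h4
      have h6 : ∀ i i' : Fin 8, (Fin.castLE (by norm_num) i + 6 : Fin 17) =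
        Fin.castLE (by norm_num) i' + 6 → i = i' := by decide
      exact h6 i i' h5
    have hjr : ∀ i, j i ∈ ({10, 11, 12, 13, 14, 15, 16} : Finset (Fin 17)) := by
      intro i
      have h2 := hψ' (F i)
      rw [hj i] at h2
      have h3 : j i ∉ Is (Fin.castLE (by norm_num) i + 6) := by
        intro h4
        exact h2 ((cert.mem _ _).2 h4)
      have h4 : ∀ (i : Fin 8) (j : Fin 17), j ∉ Is (Fin.castLE (by norm_num) i + 6) →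
        j ∈ ({10, 11, 12, 13, 14, 15, 16} : Finset (Fin 17)) := by decide +kernel
      exact h4 i (j i) h3
    have hcard := Finset.card_le_card_of_injOn (s := Finset.univ) j (fun i _ => hjr i)
      (hjinj.injOn)
    simp at hcard

/-- There is a `7`-dimensional polytope with no vertex-facet assignment that is not
(combinatorially equivalent to) a free join. -/
theorem result : ∃ P : Set (Sp 7), IsPolytope P ∧ dim P = 7 ∧ ¬ HasAssignment P ∧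
    ¬ IsFreeJoin P :=
  ⟨poly (pt xs), polytope_poly _, cert.dim_poly 0, no_assignment,
    cert.not_freeJoin vert conn⟩

end Pool.Agent.Results.MP_7ca032_co.NonJoin
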